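import Mathlib

namespace Pool.Agent.Results.MP_e65cda_an.Periods

/-- `p` is good: for every nonnegative coefficient sequence of least period `p`, every positive
solution of `x (n+2) = (α n + x (n+1)) / x n` is bounded (indices shifted by one). -/
def Good (p : ℕ) : Prop :=
  ∀ α : ℕ → ℝ, (∀ n, 0 ≤ α n) → (∀ n, α (n + p) = α n) →
    (∀ q, 0 < q → q < p → ¬ ∀ n, α (n + q) = α n) →
    ∀ x : ℕ → ℝ, 0 < x 0 → 0 < x 1 → (∀ n, x (n + 2) = (α n + x (n + 1)) / x n) →
      ∃ M, ∀ n, x n ≤ M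

noncomputable def V (a b x y : ℝ) : ℝ :=
  a * x + b * y + b * x / y + a * y / x + (b ^ 2 + a) / y + (b + a ^ 2) / x + a * b / (x * y)

lemma pos {α x : ℕ → ℝ} (h0 : ∀ n, 0 ≤ α n) (x0 : 0 < x 0) (x1 : 0 < x 1)
    (hx : ∀ n, x (n + 2) = (α n + x (n + 1)) / x n) (n : ℕ) : 0 < x n ∧ 0 < x (n + 1) := by
  induction n with
  | zero => exact ⟨x0, x1⟩
  | succ n ih =>
    refine ⟨ih.2, ?_⟩
    rw [hx]
    have := h0 n
    have := ih.1
    have := ih.2
    positivity

lemma good_two : Good 2 := by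
  intro α h0 hp hq x x0 x1 hx
  have hpos := pos h0 x0 x1 hx
  have he : ∀ k, α (2 * k) = α 0 ∧ α (2 * k + 1) = α 1 := by
    intro k
    induction k with
    | zero => simp
    | succ k ih =>
      rw [show 2 * (k + 1) = 2 * k + 2 by ring, show 2 * k + 2 + 1 = 2 * k + 1 + 2 by ring, hp, hp]
      exact ih
  set a := α 0 with ha
  set b := α 1 with hb
  have a0 : 0 ≤ a := h0 0
  have b0 : 0 ≤ b := h0 1
  have hV : ∀ k, V a b (x (2 * k)) (x (2 * k + 1)) = V a b (x 0) (x 1) := by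
    intro k
    induction k with
    | zero => simp
    | succ k ih =>
      rw [← ih, show 2 * (k + 1) = 2 * k + 2 by ring, show 2 * k + 2 + 1 = 2 * k + 1 + 2 by ring,
        hx (2 * k + 1), hx (2 * k), (he k).1, (he k).2]
      obtain ⟨h1, h2⟩ := hpos (2 * k)
      generalize x (2 * k) = s at *
      generalize x (2 * k + 1) = t at *
      have h3 : 0 < a + t := by positivity
      have h4 : 0 < b * s + (a + t) := by positivity
      have e : (b + (a + t) / s) / t = (b * s + (a + t)) / (s * t) := by field_simp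
      rw [e]
      unfold V
      field_simp
      ring
  set C := V a b (x 0) (x 1)
  have hb2 : ∀ k, a * x (2 * k) ≤ C ∧ b * x (2 * k + 1) ≤ C ∧ b * x (2 * k) ≤ C * x (2 * k + 1) ∧
      a * x (2 * k + 1) ≤ C * x (2 * k) := by
    intro k
    obtain ⟨h1, h2⟩ := hpos (2 * k)
    rw [← hV k, ← div_le_iff₀ h1, ← div_le_iff₀ h2]
    generalize x (2 * k) = s at *
    generalize x (2 * k + 1) = t at *
    unfold V
    have t1 : 0 ≤ a * s := by positivity
    have t2 : 0 ≤ b * t := by positivity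
    have t3 : 0 ≤ b * s / t := by positivity
    have t4 : 0 ≤ a * t / s := by positivity
    have t5 : 0 ≤ (b ^ 2 + a) / t := by positivity
    have t6 : 0 ≤ (b + a ^ 2) / s := by positivity
    have t7 : 0 ≤ a * b / (s * t) := by positivity
    refine ⟨by linarith, by linarith, by linarith, by linarith⟩
  have hC : 0 ≤ C := le_trans (mul_nonneg a0 x0.le) (by simpa using (hb2 0).1)
  have key : ∀ c u v : ℝ, 0 < c → c * u ≤ C → c * v ≤ C * u →
      u ≤ max (C / c) (C * (C / c) / c) ∧ v ≤ max (C / c) (C * (C / c) / c) := by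
    intro c u v hc h1 h2
    have h3 : u ≤ C / c := by rw [le_div_iff₀ hc]; linarith
    refine ⟨le_max_of_le_left h3, le_max_of_le_right ?_⟩
    rw [le_div_iff₀ hc]
    nlinarith
  have hab : 0 < a ∨ 0 < b := by
    by_contra h
    push Not at h
    refine hq 1 one_pos (by norm_num) fun n => ?_
    obtain ⟨k, rfl | rfl⟩ := Nat.even_or_odd' n
    · rw [(he k).1, (he k).2]; linarith [h.1, h.2]
    · rw [show 2 * k + 1 + 1 = 2 * (k + 1) by ring, (he (k + 1)).1, (he k).2]; linarith [h.1, h.2]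
  rcases hab with h | h
  · refine ⟨max (C / a) (C * (C / a) / a), fun n => ?_⟩
    obtain ⟨k, rfl | rfl⟩ := Nat.even_or_odd' n
    · exact (key a _ _ h (hb2 k).1 (hb2 k).2.2.2).1
    · exact (key a _ _ h (hb2 k).1 (hb2 k).2.2.2).2
  · refine ⟨max (C / b) (C * (C / b) / b), fun n => ?_⟩
    obtain ⟨k, rfl | rfl⟩ := Nat.even_or_odd' n
    · exact (key b _ _ h (hb2 k).2.1 (hb2 k).2.2.1).2
    · exact (key b _ _ h (hb2 k).2.1 (hb2 k).2.2.1).1

noncomputable def sol (α : ℕ → ℝ) : ℕ → ℝ × ℝ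
  | 0 => (1, 2)
  | n + 1 => ((sol α n).2, (α n + (sol α n).2) / (sol α n).1)

lemma three {α x : ℕ → ℝ} (hx : ∀ n, x (n + 2) = (α n + x (n + 1)) / x n) (n : ℕ)
    (h1 : α (n + 1) = 0) (h2 : α (n + 2) = 0) (h0 : 0 ≤ α n) (p1 : 0 < x n) (p2 : 0 < x (n + 1)) :
    x (n + 3) = (α n + x (n + 1)) / (x n * x (n + 1)) ∧ x (n + 4) = 1 / x (n + 1) := by
  have e3 : x (n + 3) = (α n + x (n + 1)) / (x n * x (n + 1)) := by
    rw [hx (n + 1), h1, hx n]; field_simp; ring
  refine ⟨e3, ?_⟩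
  have : 0 < α n + x (n + 1) := by positivity
  rw [hx (n + 2), h2, e3, hx n]; field_simp; ring

lemma bad (m : ℕ) : ¬ Good (3 * (m + 1)) := by
  classical
  intro hg
  set p := 3 * (m + 1) with hp
  let α : ℕ → ℝ := fun n => if p ∣ n then 1 else 0
  have h0 : ∀ n, 0 ≤ α n := fun n => by simp only [α]; split_ifs <;> norm_num
  let x : ℕ → ℝ := fun n => (sol α n).1
  have hx : ∀ n, x (n + 2) = (α n + x (n + 1)) / x n := fun n => rfl
  have x0 : x 0 = 1 := rfl
  have x1 : x 1 = 2 := rfl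
  have hpos := pos h0 (by rw [x0]; norm_num) (by rw [x1]; norm_num) hx
  obtain ⟨M, hM⟩ := hg α h0 (fun n => by simp [α]) (fun q hq hqp h => by
    have := h 0
    have h2 : ¬ p ∣ q := fun hd => absurd (Nat.le_of_dvd hq hd) (by omega)
    simp [α, h2] at this) x (by rw [x0]; norm_num) (by rw [x1]; norm_num) hx
  have hz : ∀ j i, 0 < i → i < p → α (p * j + i) = 0 := fun j i h1 h2 => by
    have : ¬ p ∣ p * j + i := fun hd =>
      absurd (Nat.le_of_dvd h1 ((Nat.dvd_add_right (dvd_mul_right p j)).mp hd)) (by omega)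
    simp [α, this]
  have ho : ∀ j, α (p * j) = 1 := fun j => by simp [α]
  have blk : ∀ j r, r ≤ m → (x (p * j + 3 * (r + 1)) =
      ((1 + x (p * j + 1)) / (x (p * j) * x (p * j + 1))) ^ ((-1 : ℤ) ^ r) ∧
      x (p * j + 3 * (r + 1) + 1) = (1 / x (p * j + 1)) ^ ((-1 : ℤ) ^ r)) := by
    intro j r
    induction r with
    | zero =>
      intro _
      have := three hx (p * j) (hz j 1 (by omega) (by omega)) (hz j 2 (by omega) (by omega))
        (h0 _) (hpos _).1 (hpos _).2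
      rw [ho] at this
      simpa using this
    | succ r ih =>
      intro hr
      obtain ⟨i1, i2⟩ := ih (by omega)
      have := three hx (p * j + 3 * (r + 1)) (hz j (3 * (r + 1) + 1) (by omega) (by omega))
        (hz j (3 * (r + 1) + 2) (by omega) (by omega)) (h0 _) (hpos _).1 (hpos _).2
      rw [hz j (3 * (r + 1)) (by omega) (by omega), zero_add,
        div_mul_cancel_right₀ (hpos _).2.ne'] at this
      rw [pow_succ, zpow_mul, zpow_mul, ← i1, ← i2, zpow_neg_one, zpow_neg_one]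
      exact ⟨this.1, by rw [← one_div]; exact this.2⟩
  have per : ∀ j, x (p * (j + 1)) =
      ((1 + x (p * j + 1)) / (x (p * j) * x (p * j + 1))) ^ ((-1 : ℤ) ^ m) ∧
      x (p * (j + 1) + 1) = (1 / x (p * j + 1)) ^ ((-1 : ℤ) ^ m) := fun j => by
    have := blk j m le_rfl
    rwa [← hp, ← mul_add_one] at this
  obtain ⟨N, hN⟩ := pow_unbounded_of_one_lt M (show (1 : ℝ) < 3 / 2 by norm_num)
  rcases Nat.even_or_odd m with hm | hm
  · simp only [hm.neg_one_pow, zpow_one] at per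
    have : ∀ j, x (p * (2 * j)) = 2 ^ j ∧ x (p * (2 * j) + 1) = 2 := by
      intro j
      induction j with
      | zero => exact ⟨by simpa using x0, by simpa using x1⟩
      | succ j ih =>
        obtain ⟨a1, a2⟩ := per (2 * j)
        obtain ⟨b1, b2⟩ := per (2 * j + 1)
        rw [ih.1, ih.2] at a1
        rw [ih.2] at a2
        rw [a1, a2] at b1
        rw [a2] at b2
        rw [show 2 * (j + 1) = 2 * j + 1 + 1 by ring, b1, b2]
        constructor
        · field_simp; ring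
        · norm_num
    have h1 := hM (p * (2 * N))
    rw [(this N).1] at h1
    have : (3 / 2 : ℝ) ^ N ≤ 2 ^ N := pow_le_pow_left₀ (by norm_num) (by norm_num) N
    linarith
  · simp only [hm.neg_one_pow, zpow_neg_one] at per
    have : ∀ j, x (p * j) = ((3 / 2) ^ j)⁻¹ ∧ x (p * j + 1) = 2 := by
      intro j
      induction j with
      | zero => exact ⟨by simpa using x0, by simpa using x1⟩
      | succ j ih =>
        obtain ⟨a1, a2⟩ := per j
        rw [ih.1, ih.2] at a1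
        rw [ih.2] at a2
        rw [a1, a2]
        constructor
        · rw [pow_succ]; field_simp; ring
        · norm_num
    have h1 := hM (p * N + 2)
    rw [hx, ho, (this N).1, (this N).2, div_inv_eq_mul] at h1
    have : (0 : ℝ) < (3 / 2) ^ N := by positivity
    linarith

noncomputable def sol' (α : ℕ → ℝ) (s t : ℝ) : ℕ → ℝ × ℝ
  | 0 => (s, t)
  | n + 1 => ((sol' α s t n).2, (α n + (sol' α s t n).2) / (sol' α s t n).1)

lemma gen (c : ℕ → ℝ) (q r i0 : ℕ) (hi : i0 < q) (hc0 : ∀ i, 0 ≤ c i) (hz : ∀ i, q ≤ i → c i = 0)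
    (hu : ∀ i, c i = c i0 → i = i0) (P : ℕ → ℝ → ℝ → Prop) (s t : ℝ) (hs : 0 < s) (ht : 0 < t)
    (P0 : P 0 s t)
    (step : ∀ j (x : ℕ → ℝ), (∀ n, 0 < x n) → (∀ i, i < q → x (i + 2) = (c i + x (i + 1)) / x i) →
      P j (x 0) (x 1) → P (j + 1) (x q) (x (q + 1)))
    (unb : ∀ M, ∃ j, ∀ s t, P j s t → M < s ∨ M < t) : ¬ Good (q + 6 * r) := by
  intro hg
  set p := q + 6 * r with hp
  let α : ℕ → ℝ := fun n => c (n % p)
  have h0 : ∀ n, 0 ≤ α n := fun n => hc0 _
  let x : ℕ → ℝ := fun n => (sol' α s t n).1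
  have hx : ∀ n, x (n + 2) = (α n + x (n + 1)) / x n := fun n => rfl
  have x0 : x 0 = s := rfl
  have x1 : x 1 = t := rfl
  have hpos := pos h0 (by rw [x0]; exact hs) (by rw [x1]; exact ht) hx
  have hα : ∀ j i, i < p → α (p * j + i) = c i := fun j i h => by
    simp only [α]; rw [Nat.mul_add_mod, Nat.mod_eq_of_lt h]
  obtain ⟨M, hM⟩ := hg α h0 (fun n => by simp [α]) (fun k hk hkp h => by
    have h1 := h i0
    simp only [α] at h1
    rw [Nat.mod_eq_of_lt (show i0 < p by omega)] at h1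
    have h2 := hu _ h1
    by_cases h3 : i0 + k < p
    · rw [Nat.mod_eq_of_lt h3] at h2; omega
    · rw [Nat.mod_eq_sub_mod (by omega), Nat.mod_eq_of_lt (by omega)] at h2; omega)
    x (by rw [x0]; exact hs) (by rw [x1]; exact ht) hx
  have pad : ∀ j k, k ≤ r → x (p * j + (q + 6 * k)) = x (p * j + q) ∧
      x (p * j + (q + 6 * k) + 1) = x (p * j + q + 1) := by
    intro j k
    induction k with
    | zero => intro _; exact ⟨rfl, rfl⟩
    | succ k ih =>
      intro hk
      obtain ⟨i1, i2⟩ := ih (by omega)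
      have z : ∀ i, i < 6 → α (p * j + (q + 6 * k) + i) = 0 := fun i h => by
        rw [add_assoc, hα j _ (by omega), hz _ (by omega)]
      have a := three hx (p * j + (q + 6 * k)) (z 1 (by omega)) (z 2 (by omega)) (h0 _)
        (hpos _).1 (hpos _).2
      have b := three hx (p * j + (q + 6 * k) + 3) (z 4 (by omega)) (z 5 (by omega)) (h0 _)
        (hpos _).1 (hpos _).2
      have z0 : α (p * j + (q + 6 * k)) = 0 := z 0 (by omega)
      rw [z0, zero_add, div_mul_cancel_right₀ (hpos _).2.ne'] at a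
      rw [z 3 (by omega), zero_add, div_mul_cancel_right₀ (hpos _).2.ne', a.1, inv_inv] at b
      refine ⟨b.1.trans i1, ?_⟩
      have b2 : x (p * j + (q + 6 * k) + 3 + 4) = 1 / x (p * j + (q + 6 * k) + 4) := b.2
      rw [a.2, one_div_one_div, i2] at b2
      exact b2
  have all : ∀ j, P j (x (p * j)) (x (p * j + 1)) := by
    intro j
    induction j with
    | zero => simpa [x0, x1] using P0
    | succ j ih =>
      have := step j (fun n => x (p * j + n)) (fun n => (hpos _).1)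
        (fun i h => by rw [← hα j i (by omega)]; exact hx _) ih
      obtain ⟨a, b⟩ := pad j r le_rfl
      rw [mul_add_one p j, a, b]
      exact this
  obtain ⟨j, hj⟩ := unb M
  rcases hj _ _ (all j) with h | h
  · exact absurd (hM _) (not_le.mpr h)
  · exact absurd (hM _) (not_le.mpr h)

lemma five {x : ℕ → ℝ} (hp : ∀ n, 0 < x n) (n : ℕ)
    (h : ∀ i, i < 5 → x (n + i + 2) = (1 + x (n + i + 1)) / x (n + i)) :
    x (n + 5) = x n ∧ x (n + 6) = x (n + 1) := by
  have h0 : x (n + 2) = (1 + x (n + 1)) / x n := h 0 (by omega)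
  have h1 : x (n + 3) = (1 + x (n + 2)) / x (n + 1) := h 1 (by omega)
  have h2 : x (n + 4) = (1 + x (n + 3)) / x (n + 2) := h 2 (by omega)
  have h3 : x (n + 5) = (1 + x (n + 4)) / x (n + 3) := h 3 (by omega)
  have h4 : x (n + 6) = (1 + x (n + 5)) / x (n + 4) := h 4 (by omega)
  have a := hp n
  have b := hp (n + 1)
  have e3 : x (n + 3) = (1 + x n + x (n + 1)) / (x n * x (n + 1)) := by
    rw [h1, h0]; field_simp; ring
  have e4 : x (n + 4) = (1 + x n) / x (n + 1) := by rw [h2, e3, h0]; field_simp; ring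
  have e5 : x (n + 5) = x n := by rw [h3, e4, e3]; field_simp; ring
  exact ⟨e5, by rw [h4, e5, e4]; field_simp⟩

lemma g5 {x : ℕ → ℝ} (hp : ∀ n, 0 < x n) (h0 : x 2 = (0 + x 1) / x 0) (h1 : x 3 = (0 + x 2) / x 1)
    (h2 : x 4 = (0 + x 3) / x 2) (h3 : x 5 = (0 + x 4) / x 3) (h4 : x 6 = (2 + x 5) / x 4) :
    x 5 = x 0 / x 1 ∧ x 6 = 2 * x 1 + x 0 := by
  have a := hp 0
  have b := hp 1
  have e4 : x 4 = 1 / x 1 := by rw [h2, h1, h0]; field_simp; ring
  have e5 : x 5 = x 0 / x 1 := by rw [h3, e4, h1, h0]; field_simp; ring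
  exact ⟨e5, by rw [h4, e5, e4]; field_simp⟩

lemma unb2 (M : ℝ) : ∃ N : ℕ, M < 2 ^ N := pow_unbounded_of_one_lt M (by norm_num)

lemma badA (e : ℕ) (he : e = 0 ∨ e = 5) (r : ℕ) : ¬ Good (5 + e + 6 * r) := by
  refine gen (fun i => if i = 4 then 2 else if 5 ≤ i ∧ i < 5 + e then 1 else 0) (5 + e) r 4
    (by omega) (fun i => by split_ifs <;> norm_num)
    (fun i h => by rw [if_neg (by omega), if_neg (by omega)])
    (fun i h => by simp only [if_true] at h; split_ifs at h <;> first | assumption | norm_num at h)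
    (fun j _ t => 2 ^ j ≤ t) 1 1 one_pos one_pos (by norm_num) ?_ ?_
  · intro j x hp hx hP
    have := (g5 hp (by simpa using hx 0 (by omega)) (by simpa using hx 1 (by omega))
      (by simpa using hx 2 (by omega)) (by simpa using hx 3 (by omega))
      (by simpa using hx 4 (by omega))).2
    have h0 := hp 0
    rcases he with rfl | rfl
    · show 2 ^ (j + 1) ≤ x 6
      rw [pow_succ]; linarith
    · have h5 := (five hp 5 fun i h => by
        rw [hx (5 + i) (by omega), if_neg (by omega), if_pos (by omega)]).2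
      show 2 ^ (j + 1) ≤ x (5 + 6)
      rw [h5, pow_succ]; linarith
  · intro M
    obtain ⟨N, hN⟩ := unb2 M
    exact ⟨N, fun s t h => Or.inr (hN.trans_le h)⟩

lemma badB (e : ℕ) (he : e = 0 ∨ e = 5) (r : ℕ) : ¬ Good (8 + e + 6 * r) := by
  refine gen (fun i => if i = 4 then 2 else if i = 7 then 1 / 2 else
      if 8 ≤ i ∧ i < 8 + e then 1 else 0) (8 + e) r 4
    (by omega) (fun i => by split_ifs <;> norm_num)
    (fun i h => by rw [if_neg (by omega), if_neg (by omega), if_neg (by omega)])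
    (fun i h => by simp only [if_true] at h; split_ifs at h <;> first | assumption | norm_num at h)
    (fun j s t => ∃ k, (j = 2 * k ∧ s = 2 ^ k ∧ t = 1 / 2) ∨
      (j = 2 * k + 1 ∧ s = 1 / 2 / 2 ^ k ∧ t = 1)) 1 (1 / 2) one_pos (by norm_num)
      ⟨0, Or.inl (by norm_num)⟩ ?_ ?_
  · intro j x hp hx hP
    obtain ⟨e5, e6⟩ := g5 hp (by simpa using hx 0 (by omega)) (by simpa using hx 1 (by omega))
      (by simpa using hx 2 (by omega)) (by simpa using hx 3 (by omega))
      (by simpa using hx 4 (by omega))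
    have h5 : x 7 = x 6 / x 5 := by simpa using hx 5 (by omega)
    have h6 : x 8 = x 7 / x 6 := by simpa using hx 6 (by omega)
    have h7 : x 9 = (1 / 2 + x 8) / x 7 := by simpa using hx 7 (by omega)
    have a := hp 0
    have b := hp 1
    have e8 : x 8 = x 1 / x 0 := by rw [h6, h5, e6, e5]; field_simp
    have e9 : x 9 = 1 / (2 * x 1) := by rw [h7, e8, h5, e6, e5]; field_simp; ring
    have hh : x (8 + e) = x 1 / x 0 ∧ x (8 + e + 1) = 1 / (2 * x 1) := by
      rcases he with rfl | rfl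
      · exact ⟨e8, e9⟩
      · have h5 := five hp 8 fun i h => by
          rw [hx (8 + i) (by omega), if_neg (by omega), if_neg (by omega), if_pos (by omega)]
        exact ⟨h5.1.trans e8, h5.2.trans e9⟩
    rw [hh.1, hh.2]
    obtain ⟨k, ⟨rfl, h1, h2⟩ | ⟨rfl, h1, h2⟩⟩ := hP
    · exact ⟨k, Or.inr ⟨rfl, by rw [h1, h2], by rw [h2]; norm_num⟩⟩
    · exact ⟨k + 1, Or.inl ⟨by ring, by rw [h1, h2, pow_succ]; field_simp, by rw [h2]; norm_num⟩⟩
  · intro M
    obtain ⟨N, hN⟩ := unb2 M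
    refine ⟨2 * N, fun s t h => Or.inl ?_⟩
    obtain ⟨k, ⟨h0, h1, h2⟩ | ⟨h0, h1, h2⟩⟩ := h
    · rw [h1, ← show N = k by omega]; exact hN
    · omega

lemma gen2 (c : ℕ → ℝ) (q m i0 : ℕ) (hi : i0 < q) (hc0 : ∀ i, 0 ≤ c i)
    (hu : ∀ i, i < q → c i = c i0 → i = i0) (P : ℕ → ℝ → ℝ → Prop) (s t : ℝ) (hs : 0 < s)
    (ht : 0 < t) (P0 : P 0 s t)
    (step : ∀ j (x : ℕ → ℝ), (∀ n, 0 < x n) → (∀ i, x (i + 2) = (c (i % q) + x (i + 1)) / x i) →
      P j (x 0) (x 1) → P (j + 1) (x (q * m)) (x (q * m + 1)))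
    (unb : ∀ M, ∃ j, ∀ s t, 0 < t → P j s t → M < t) : ¬ Good q := by
  intro hg
  let α : ℕ → ℝ := fun n => c (n % q)
  have h0 : ∀ n, 0 ≤ α n := fun n => hc0 _
  let x : ℕ → ℝ := fun n => (sol' α s t n).1
  have hx : ∀ n, x (n + 2) = (α n + x (n + 1)) / x n := fun n => rfl
  have x0 : x 0 = s := rfl
  have x1 : x 1 = t := rfl
  have hpos := pos h0 (by rw [x0]; exact hs) (by rw [x1]; exact ht) hx
  obtain ⟨M, hM⟩ := hg α h0 (fun n => by simp [α]) (fun k hk hkp h => by
    have h1 := h i0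
    simp only [α] at h1
    rw [Nat.mod_eq_of_lt hi] at h1
    have h2 := hu _ (Nat.mod_lt _ (by omega)) h1
    by_cases h3 : i0 + k < q
    · rw [Nat.mod_eq_of_lt h3] at h2; omega
    · rw [Nat.mod_eq_sub_mod (by omega), Nat.mod_eq_of_lt (by omega)] at h2; omega)
    x (by rw [x0]; exact hs) (by rw [x1]; exact ht) hx
  have all : ∀ j, P j (x (q * m * j)) (x (q * m * j + 1)) := by
    intro j
    induction j with
    | zero => simpa [x0, x1] using P0
    | succ j ih =>
      have := step j (fun n => x (q * m * j + n)) (fun n => (hpos _).1)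
        (fun i => by
          have e : c (i % q) = α (q * m * j + i) := by
            simp only [α]; rw [mul_assoc, Nat.mul_add_mod]
          rw [e]; exact hx _) ih
      rw [mul_add_one (q * m) j]
      exact this
  obtain ⟨j, hj⟩ := unb M
  exact absurd (hM _) (not_le.mpr (hj _ _ (hpos _).2 (all j)))

lemma stepZ {x : ℕ → ℝ} (hp : ∀ n, 0 < x n) (i : ℕ) (h : x (i + 2) = (0 + x (i + 1)) / x i) :
    Real.log (x (i + 2)) = Real.log (x (i + 1)) - Real.log (x i) := by
  rw [h, zero_add, Real.log_div (hp _).ne' (hp _).ne']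

lemma stepA {x : ℕ → ℝ} (hp : ∀ n, 0 < x n) (i : ℕ) (A : ℝ)
    (h : x (i + 2) = (Real.exp A + x (i + 1)) / x i) :
    A ≤ Real.log (x (i + 2)) + Real.log (x i) ∧
    Real.log (x (i + 1)) ≤ Real.log (x (i + 2)) + Real.log (x i) ∧
    (Real.log (x (i + 1)) ≤ A → Real.log (x (i + 2)) + Real.log (x i) ≤ A + 1) ∧
    (A ≤ Real.log (x (i + 1)) →
      Real.log (x (i + 2)) + Real.log (x i) ≤ Real.log (x (i + 1)) + 1) := by
  have h1 := hp (i + 1)
  have h2 := Real.exp_pos A
  have h3 : 0 < Real.exp A + x (i + 1) := by positivity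
  have e : Real.log (x (i + 2)) + Real.log (x i) = Real.log (Real.exp A + x (i + 1)) := by
    rw [h, Real.log_div h3.ne' (hp _).ne']; ring
  have h4 : (2 : ℝ) ≤ Real.exp 1 := by have := Real.add_one_le_exp (1 : ℝ); linarith
  rw [e]
  refine ⟨?_, Real.log_le_log h1 (by linarith), fun hh => ?_, fun hh => ?_⟩
  · rw [Real.le_log_iff_exp_le h3]; linarith
  · rw [Real.log_le_iff_le_exp h1] at hh
    rw [Real.log_le_iff_le_exp h3, Real.exp_add]; nlinarith
  · rw [Real.le_log_iff_exp_le h1] at hh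
    rw [Real.log_le_iff_le_exp h3, Real.exp_add, Real.exp_log h1]; nlinarith

lemma big (M : ℝ) : ∃ j : ℕ, ∀ t : ℝ, 0 < t → (j : ℝ) ≤ Real.log t → M < t := by
  obtain ⟨j, hj⟩ := exists_nat_gt M
  exact ⟨j, fun t ht h => by have := Real.log_le_sub_one_of_pos ht; linarith⟩

noncomputable def c4 : ℕ → ℝ
  | 1 => Real.exp (-1000)
  | 3 => Real.exp 1000
  | _ => 0

noncomputable def c7 : ℕ → ℝ
  | 1 => Real.exp 1
  | 3 => Real.exp 0
  | 5 => Real.exp 0
  | 6 => Real.exp 0
  | _ => 0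

lemma bad4 : ¬ Good 4 := by
  refine gen2 c4 4 4 3 (by omega) (fun i => by unfold c4; split <;> positivity) ?_
    (fun j s t => 10000 + (j : ℝ) ≤ 2 * Real.log t - Real.log s ∧
      10000 + (j : ℝ) ≤ Real.log s - Real.log t) (Real.exp 30000) (Real.exp 20000)
    (Real.exp_pos _) (Real.exp_pos _) (by simp only [Real.log_exp]; norm_num) ?_ ?_
  · intro i hi h
    have := (Real.exp_pos 1000).ne
    interval_cases i
    · exact absurd h this
    · have h' : Real.exp (-1000) = Real.exp 1000 := h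
      have := Real.exp_injective h'
      norm_num at this
    · exact absurd h this
    · rfl
  · rintro j x hp hx ⟨p1, p2⟩
    have hj : (0 : ℝ) ≤ j := Nat.cast_nonneg j
    have h0 : Real.log (x 2) = Real.log (x 1) - Real.log (x 0) := stepZ hp 0 (hx 0)
    obtain ⟨a1, b1, c1, d1⟩ := stepA hp 1 (-1000) (hx 1)
    have l1 : (-1000 : ℝ) ≤ Real.log (x 3) + Real.log (x 1) := a1
    have k1 : Real.log (x 2) ≤ -1000 := by linarith
    have u1 : Real.log (x 3) + Real.log (x 1) ≤ (-1000 : ℝ) + 1 := c1 k1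
    clear a1 b1 c1 d1 k1
    have h2 : Real.log (x 4) = Real.log (x 3) - Real.log (x 2) := stepZ hp 2 (hx 2)
    obtain ⟨a3, b3, c3, d3⟩ := stepA hp 3 (1000) (hx 3)
    have l3 : (1000 : ℝ) ≤ Real.log (x 5) + Real.log (x 3) := a3
    have k3 : Real.log (x 4) ≤ 1000 := by linarith
    have u3 : Real.log (x 5) + Real.log (x 3) ≤ (1000 : ℝ) + 1 := c3 k3
    clear a3 b3 c3 d3 k3
    have h4 : Real.log (x 6) = Real.log (x 5) - Real.log (x 4) := stepZ hp 4 (hx 4)
    obtain ⟨a5, b5, c5, d5⟩ := stepA hp 5 (-1000) (hx 5)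
    have l5 : Real.log (x 6) ≤ Real.log (x 7) + Real.log (x 5) := b5
    have k5 : (-1000 : ℝ) ≤ Real.log (x 6) := by linarith
    have u5 : Real.log (x 7) + Real.log (x 5) ≤ Real.log (x 6) + 1 := d5 k5
    clear a5 b5 c5 d5 k5
    have h6 : Real.log (x 8) = Real.log (x 7) - Real.log (x 6) := stepZ hp 6 (hx 6)
    obtain ⟨a7, b7, c7, d7⟩ := stepA hp 7 (1000) (hx 7)
    have l7 : (1000 : ℝ) ≤ Real.log (x 9) + Real.log (x 7) := a7
    have k7 : Real.log (x 8) ≤ 1000 := by linarith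
    have u7 : Real.log (x 9) + Real.log (x 7) ≤ (1000 : ℝ) + 1 := c7 k7
    clear a7 b7 c7 d7 k7
    have h8 : Real.log (x 10) = Real.log (x 9) - Real.log (x 8) := stepZ hp 8 (hx 8)
    obtain ⟨a9, b9, c9, d9⟩ := stepA hp 9 (-1000) (hx 9)
    have l9 : Real.log (x 10) ≤ Real.log (x 11) + Real.log (x 9) := b9
    have k9 : (-1000 : ℝ) ≤ Real.log (x 10) := by linarith
    have u9 : Real.log (x 11) + Real.log (x 9) ≤ Real.log (x 10) + 1 := d9 k9
    clear a9 b9 c9 d9 k9
    have h10 : Real.log (x 12) = Real.log (x 11) - Real.log (x 10) := stepZ hp 10 (hx 10)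
    obtain ⟨a11, b11, c11, d11⟩ := stepA hp 11 (1000) (hx 11)
    have l11 : Real.log (x 12) ≤ Real.log (x 13) + Real.log (x 11) := b11
    have k11 : (1000 : ℝ) ≤ Real.log (x 12) := by linarith
    have u11 : Real.log (x 13) + Real.log (x 11) ≤ Real.log (x 12) + 1 := d11 k11
    clear a11 b11 c11 d11 k11
    have h12 : Real.log (x 14) = Real.log (x 13) - Real.log (x 12) := stepZ hp 12 (hx 12)
    obtain ⟨a13, b13, c13, d13⟩ := stepA hp 13 (-1000) (hx 13)
    have l13 : (-1000 : ℝ) ≤ Real.log (x 15) + Real.log (x 13) := a13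
    have k13 : Real.log (x 14) ≤ -1000 := by linarith
    have u13 : Real.log (x 15) + Real.log (x 13) ≤ (-1000 : ℝ) + 1 := c13 k13
    clear a13 b13 c13 d13 k13
    have h14 : Real.log (x 16) = Real.log (x 15) - Real.log (x 14) := stepZ hp 14 (hx 14)
    obtain ⟨a15, b15, c15, d15⟩ := stepA hp 15 (1000) (hx 15)
    have l15 : Real.log (x 16) ≤ Real.log (x 17) + Real.log (x 15) := b15
    have k15 : (1000 : ℝ) ≤ Real.log (x 16) := by linarith
    have u15 : Real.log (x 17) + Real.log (x 15) ≤ Real.log (x 16) + 1 := d15 k15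
    clear a15 b15 c15 d15 k15
    show _ ≤ 2 * Real.log (x 17) - Real.log (x 16) ∧ _ ≤ Real.log (x 16) - Real.log (x 17)
    push_cast
    constructor <;> linarith
  · intro M
    obtain ⟨j, hj⟩ := big M
    have hj0 : (0 : ℝ) ≤ j := Nat.cast_nonneg j
    exact ⟨j, fun s t ht h => hj t ht (by linarith [h.1, h.2])⟩

lemma bad7 : ¬ Good 7 := by
  refine gen2 c7 7 3 1 (by omega) (fun i => by unfold c7; split <;> positivity) ?_
    (fun j s t => 10000 + (j : ℝ) ≤ Real.log s ∧
      10000 + (j : ℝ) ≤ Real.log t - Real.log s) (Real.exp 10000) (Real.exp 20000)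
    (Real.exp_pos _) (Real.exp_pos _) (by simp only [Real.log_exp]; norm_num) ?_ ?_
  · intro i hi h
    have := (Real.exp_pos 1).ne
    have h2 : Real.exp 0 ≠ Real.exp 1 := fun h' => by
      have := Real.exp_injective h'
      norm_num at this
    interval_cases i
    · exact absurd h this
    · rfl
    · exact absurd h this
    · exact absurd h h2
    · exact absurd h this
    · exact absurd h h2
    · exact absurd h h2
  · rintro j x hp hx ⟨p1, p2⟩
    have hj : (0 : ℝ) ≤ j := Nat.cast_nonneg j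
    have h0 : Real.log (x 2) = Real.log (x 1) - Real.log (x 0) := stepZ hp 0 (hx 0)
    obtain ⟨a1, b1, c1, d1⟩ := stepA hp 1 (1) (hx 1)
    have l1 : Real.log (x 2) ≤ Real.log (x 3) + Real.log (x 1) := b1
    have k1 : (1 : ℝ) ≤ Real.log (x 2) := by linarith
    have u1 : Real.log (x 3) + Real.log (x 1) ≤ Real.log (x 2) + 1 := d1 k1
    clear a1 b1 c1 d1 k1
    have h2 : Real.log (x 4) = Real.log (x 3) - Real.log (x 2) := stepZ hp 2 (hx 2)
    obtain ⟨a3, b3, c3, d3⟩ := stepA hp 3 (0) (hx 3)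
    have l3 : (0 : ℝ) ≤ Real.log (x 5) + Real.log (x 3) := a3
    have k3 : Real.log (x 4) ≤ 0 := by linarith
    have u3 : Real.log (x 5) + Real.log (x 3) ≤ (0 : ℝ) + 1 := c3 k3
    clear a3 b3 c3 d3 k3
    have h4 : Real.log (x 6) = Real.log (x 5) - Real.log (x 4) := stepZ hp 4 (hx 4)
    obtain ⟨a5, b5, c5, d5⟩ := stepA hp 5 (0) (hx 5)
    have l5 : Real.log (x 6) ≤ Real.log (x 7) + Real.log (x 5) := b5
    have k5 : (0 : ℝ) ≤ Real.log (x 6) := by linarith
    have u5 : Real.log (x 7) + Real.log (x 5) ≤ Real.log (x 6) + 1 := d5 k5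
    clear a5 b5 c5 d5 k5
    obtain ⟨a6, b6, c6, d6⟩ := stepA hp 6 (0) (hx 6)
    have l6 : Real.log (x 7) ≤ Real.log (x 8) + Real.log (x 6) := b6
    have k6 : (0 : ℝ) ≤ Real.log (x 7) := by linarith
    have u6 : Real.log (x 8) + Real.log (x 6) ≤ Real.log (x 7) + 1 := d6 k6
    clear a6 b6 c6 d6 k6
    have h7 : Real.log (x 9) = Real.log (x 8) - Real.log (x 7) := stepZ hp 7 (hx 7)
    obtain ⟨a8, b8, c8, d8⟩ := stepA hp 8 (1) (hx 8)
    have l8 : (1 : ℝ) ≤ Real.log (x 10) + Real.log (x 8) := a8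
    have k8 : Real.log (x 9) ≤ 1 := by linarith
    have u8 : Real.log (x 10) + Real.log (x 8) ≤ (1 : ℝ) + 1 := c8 k8
    clear a8 b8 c8 d8 k8
    have h9 : Real.log (x 11) = Real.log (x 10) - Real.log (x 9) := stepZ hp 9 (hx 9)
    obtain ⟨a10, b10, c10, d10⟩ := stepA hp 10 (0) (hx 10)
    have l10 : Real.log (x 11) ≤ Real.log (x 12) + Real.log (x 10) := b10
    have k10 : (0 : ℝ) ≤ Real.log (x 11) := by linarith
    have u10 : Real.log (x 12) + Real.log (x 10) ≤ Real.log (x 11) + 1 := d10 k10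
    clear a10 b10 c10 d10 k10
    have h11 : Real.log (x 13) = Real.log (x 12) - Real.log (x 11) := stepZ hp 11 (hx 11)
    obtain ⟨a12, b12, c12, d12⟩ := stepA hp 12 (0) (hx 12)
    have l12 : (0 : ℝ) ≤ Real.log (x 14) + Real.log (x 12) := a12
    have k12 : Real.log (x 13) ≤ 0 := by linarith
    have u12 : Real.log (x 14) + Real.log (x 12) ≤ (0 : ℝ) + 1 := c12 k12
    clear a12 b12 c12 d12 k12
    obtain ⟨a13, b13, c13, d13⟩ := stepA hp 13 (0) (hx 13)
    have l13 : (0 : ℝ) ≤ Real.log (x 15) + Real.log (x 13) := a13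
    have k13 : Real.log (x 14) ≤ 0 := by linarith
    have u13 : Real.log (x 15) + Real.log (x 13) ≤ (0 : ℝ) + 1 := c13 k13
    clear a13 b13 c13 d13 k13
    have h14 : Real.log (x 16) = Real.log (x 15) - Real.log (x 14) := stepZ hp 14 (hx 14)
    obtain ⟨a15, b15, c15, d15⟩ := stepA hp 15 (1) (hx 15)
    have l15 : Real.log (x 16) ≤ Real.log (x 17) + Real.log (x 15) := b15
    have k15 : (1 : ℝ) ≤ Real.log (x 16) := by linarith
    have u15 : Real.log (x 17) + Real.log (x 15) ≤ Real.log (x 16) + 1 := d15 k15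
    clear a15 b15 c15 d15 k15
    have h16 : Real.log (x 18) = Real.log (x 17) - Real.log (x 16) := stepZ hp 16 (hx 16)
    obtain ⟨a17, b17, c17, d17⟩ := stepA hp 17 (0) (hx 17)
    have l17 : (0 : ℝ) ≤ Real.log (x 19) + Real.log (x 17) := a17
    have k17 : Real.log (x 18) ≤ 0 := by linarith
    have u17 : Real.log (x 19) + Real.log (x 17) ≤ (0 : ℝ) + 1 := c17 k17
    clear a17 b17 c17 d17 k17
    have h18 : Real.log (x 20) = Real.log (x 19) - Real.log (x 18) := stepZ hp 18 (hx 18)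
    obtain ⟨a19, b19, c19, d19⟩ := stepA hp 19 (0) (hx 19)
    have l19 : (0 : ℝ) ≤ Real.log (x 21) + Real.log (x 19) := a19
    have k19 : Real.log (x 20) ≤ 0 := by linarith
    have u19 : Real.log (x 21) + Real.log (x 19) ≤ (0 : ℝ) + 1 := c19 k19
    clear a19 b19 c19 d19 k19
    obtain ⟨a20, b20, c20, d20⟩ := stepA hp 20 (0) (hx 20)
    have l20 : Real.log (x 21) ≤ Real.log (x 22) + Real.log (x 20) := b20
    have k20 : (0 : ℝ) ≤ Real.log (x 21) := by linarith
    have u20 : Real.log (x 22) + Real.log (x 20) ≤ Real.log (x 21) + 1 := d20 k20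
    clear a20 b20 c20 d20 k20
    show _ ≤ Real.log (x 21) ∧ _ ≤ Real.log (x 22) - Real.log (x 21)
    push_cast
    constructor <;> linarith
  · intro M
    obtain ⟨j, hj⟩ := big M
    have hj0 : (0 : ℝ) ≤ j := Nat.cast_nonneg j
    exact ⟨j, fun s t ht h => hj t ht (by linarith [h.1, h.2])⟩

lemma most : Good 2 ∧ ∀ p, 3 ≤ p → p ≠ 4 → p ≠ 7 → ¬ Good p := by
  refine ⟨good_two, fun p h3 h4 h7 => ?_⟩
  have : (∃ k, p = 3 * (k + 1)) ∨ (∃ r, p = 5 + 0 + 6 * r) ∨ (∃ r, p = 5 + 5 + 6 * r) ∨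
      (∃ r, p = 8 + 0 + 6 * r) ∨ (∃ r, p = 8 + 5 + 6 * r) := by
    have : p % 6 = 0 ∨ p % 6 = 3 ∨ p % 6 = 5 ∨ p % 6 = 4 ∨ p % 6 = 2 ∨ p % 6 = 1 := by omega
    rcases this with h | h | h | h | h | h
    · exact Or.inl ⟨p / 3 - 1, by omega⟩
    · exact Or.inl ⟨p / 3 - 1, by omega⟩
    · exact Or.inr (Or.inl ⟨p / 6, by omega⟩)
    · exact Or.inr (Or.inr (Or.inl ⟨p / 6 - 1, by omega⟩))
    · exact Or.inr (Or.inr (Or.inr (Or.inl ⟨p / 6 - 1, by omega⟩)))
    · exact Or.inr (Or.inr (Or.inr (Or.inr ⟨p / 6 - 2, by omega⟩)))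
  rcases this with ⟨k, rfl⟩ | ⟨r, rfl⟩ | ⟨r, rfl⟩ | ⟨r, rfl⟩ | ⟨r, rfl⟩
  · exact bad k
  · exact badA 0 (Or.inl rfl) r
  · exact badA 5 (Or.inr rfl) r
  · exact badB 0 (Or.inl rfl) r
  · exact badB 5 (Or.inr rfl) r

theorem result (p : ℕ) (hp : 2 ≤ p) : Good p ↔ p = 2 := by
  refine ⟨fun h => ?_, fun h => h ▸ good_two⟩
  by_contra h2
  by_cases h4 : p = 4
  · exact bad4 (h4 ▸ h)
  by_cases h7 : p = 7
  · exact bad7 (h7 ▸ h)
  exact most.2 p (by omega) h4 h7 h

end Pool.Agent.Results.MP_e65cda_an.Periods
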